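import Pool.Agent.ATB.Stmts3
import Pool.Agent.Helper69_ATB.FO2

set_option autoImplicit false

/-! Row FO3 of the squad ATB: `m` invertible matrices. -/

namespace Pool.Agent.ATB.H24

open Matrix

/-- the arithmetic -/
theorem arith (p m n d o : ℤ) (g : ℤ) (hp : 1 ≤ p) (hpm : p ≤ m) (hg : n ≤ 2 * g) (hd : d ≤ n)
    (hd0 : 0 ≤ d)
    (h : (2 * p - 1) * g ≤ m * g + p) (ho : m * n ≤ m * d + o) :
    (2 * p - 1) * n ≤ o + (2 * p - 1) * d + p ∨ p * n ≤ o + d + 1 := by
  obtain ⟨c, hc⟩ : ∃ c, c = n - d := ⟨_, rfl⟩
  have hc0 : 0 ≤ c := by omega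
  have hmc : m * c ≤ o := by rw [hc, mul_sub]; linarith
  rcases le_or_gt c g with h1 | h1
  · left
    have h2 : (2 * p - 1 - m) * c ≤ p := by
      rcases le_or_gt (2 * p - 1 - m) 0 with h3 | h3
      · have := mul_nonneg (show 0 ≤ m - (2 * p - 1) by linarith) hc0
        nlinarith
      · have := mul_le_mul_of_nonneg_left h1 h3.le
        nlinarith
    have h3 : (2 * p - 1) * n = (2 * p - 1) * c + (2 * p - 1) * d := by rw [hc]; ring
    rw [h3]
    nlinarith
  · right
    have h2 : (m - 1) * (g + 1) ≤ (m - 1) * c :=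
      mul_le_mul_of_nonneg_left (by omega) (by linarith)
    have h3 : (p - 1) * n ≤ (p - 1) * (2 * g) :=
      mul_le_mul_of_nonneg_left hg (by linarith)
    have h4 : (p - 1) * n ≤ (m - 1) * c + 1 := by nlinarith
    have h5 : n = c + d := by rw [hc]; ring
    nlinarith

/-- row FO3 -/
theorem fo3 (h : GN3Stmt) : FO3Stmt := by
  intro p hp K _ _ n m hpm hm B hB
  classical
  obtain ⟨f, hf, hp⟩ := h p K n (Fin m × Fin n) (Matrix.of fun r c => B c.1 r c.2) (fun U _ => by
    have hcard : Nat.card {c : Fin m × Fin n //
        (fun r => (Matrix.of fun r (c : Fin m × Fin n) => B c.1 r c.2) r c) ∉ U} =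
        (Finset.univ.filter (fun c : Fin m × Fin n => (fun r => B c.1 r c.2) ∉ U)).card := by
      rw [Nat.card_eq_fintype_card, Fintype.card_subtype]
      rfl
    rw [hcard]
    have hsum : (Finset.univ.filter (fun c : Fin m × Fin n => (fun r => B c.1 r c.2) ∈ U)).card +
        (Finset.univ.filter (fun c : Fin m × Fin n => (fun r => B c.1 r c.2) ∉ U)).card = m * n := by
      rw [Finset.card_filter_add_card_filter_not]
      simp
    have hle : (Finset.univ.filter (fun c : Fin m × Fin n => (fun r => B c.1 r c.2) ∈ U)).card ≤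
        m * Module.finrank K U := by
      rw [Finset.card_eq_sum_card_fiberwise (f := Prod.fst) (t := Finset.univ)
        (fun _ _ => Finset.mem_coe.2 (Finset.mem_univ _))]
      calc _ ≤ ∑ _j : Fin m, Module.finrank K U := by
            refine Finset.sum_le_sum (fun j _ => ?_)
            have hinj : ((Finset.univ.filter
                (fun c : Fin m × Fin n => (fun r => B c.1 r c.2) ∈ U)).filter
                (fun c => c.1 = j)).card ≤
                (Finset.univ.filter (fun i : Fin n => (fun r => B j r i) ∈ U)).card := by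
              refine Finset.card_le_card_of_injOn Prod.snd (fun c hc => ?_) (fun c hc d hd hcd => ?_)
              · simp only [Finset.coe_filter, Finset.mem_filter, Finset.mem_univ, true_and,
                  Set.mem_ofPred_eq] at hc ⊢
                obtain ⟨h1, h2⟩ := hc
                rw [← h2]
                exact h1
              · simp only [Finset.coe_filter, Finset.mem_filter, Finset.mem_univ, true_and,
                  Set.mem_ofPred_eq] at hc hd
                exact Prod.ext (hc.2.trans hd.2.symm) hcd
            refine hinj.trans (H69F.colCount (B j) (hB j) U _ (fun i hi => ?_))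
            exact (Finset.mem_filter.1 hi).2
        _ = m * Module.finrank K U := by simp
    have hfr : Module.finrank K U ≤ n := by
      have h1 := Submodule.finrank_le U
      rwa [Module.finrank_fin_fun] at h1
    have hp1 : 1 ≤ p := (Fact.out : p.Prime).one_le
    have hg : n ≤ 2 * ((n + 1) / 2) := by omega
    obtain ⟨o, ho⟩ : ∃ o : ℕ, o = (Finset.univ.filter
      (fun c : Fin m × Fin n => (fun r => B c.1 r c.2) ∉ U)).card := ⟨_, rfl⟩
    obtain ⟨i, hi⟩ : ∃ i : ℕ, i = (Finset.univ.filter
      (fun c : Fin m × Fin n => (fun r => B c.1 r c.2) ∈ U)).card := ⟨_, rfl⟩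
    rw [← hi, ← ho] at hsum
    rw [← hi] at hle
    rw [← ho]
    obtain ⟨q, hq⟩ : ∃ q : ℕ, 2 * p = q + 1 := ⟨2 * p - 1, by omega⟩
    have hq' : 2 * p - 1 = q := by omega
    rw [hq'] at hm ⊢
    have hqz : (2 * (p : ℤ) - 1) = q := by
      have : (2 * (p : ℤ)) = q + 1 := by exact_mod_cast hq
      linarith
    have hmain := arith p m n (Module.finrank K U) o ((n + 1) / 2 : ℕ) (by exact_mod_cast hp1)
      (by exact_mod_cast hpm) (by exact_mod_cast hg) (by exact_mod_cast hfr) (by positivity)
      (by rw [hqz]; exact_mod_cast hm) (by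
        have : m * n ≤ m * Module.finrank K U + o := by omega
        exact_mod_cast this)
    rw [hqz] at hmain
    rcases hmain with h1 | h1
    · left
      exact_mod_cast h1
    · right
      exact_mod_cast h1)
  exact ⟨f, hf, hp⟩

end Pool.Agent.ATB.H24
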